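import Mathlib

-- part Pool.Agent.Lib.MP_aafae6_an.Abstract
section

/-!
An abstract renorming: the dual unit ball is cut out by a weighted sum of suprema of
Euclidean two-term quadratic forms.
-/

set_option autoImplicit false

open Filter Topology

namespace Pool.Agent.Lib.MP_aafae6_an

variable {X : Type} [NormedAddCommGroup X] [NormedSpace ℝ X]

/-- The two-term quadratic form. -/
def q (f : X →L[ℝ] ℝ) (a : X × X) : ℝ := (f a.1) ^ 2 + (f a.2) ^ 2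

lemma q_nonneg (f : X →L[ℝ] ℝ) (a : X × X) : 0 ≤ q f a := by unfold q; positivity

/-- The data of the renorming. -/
structure Data (X : Type) [NormedAddCommGroup X] [NormedSpace ℝ X] (I : Type) where
  c : I → ℝ
  A : I → Set (X × X)
  i0 : I
  c_pos : ∀ i, 0 < c i
  c_sum : ∀ F : Finset I, ∑ i ∈ F, c i ≤ 1 / 2
  A_ne : ∀ i, (A i).Nonempty
  A_norm : ∀ i, ∀ a ∈ A i, ‖a.1‖ ≤ 1 ∧ ‖a.2‖ ≤ 1
  A_i0 : ∀ y : X, ‖y‖ ≤ 1 → (y, 0) ∈ A i0

variable {I : Type} (d : Data X I)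

def Data.B : Set (X →L[ℝ] ℝ) :=
  {f | ∀ (F : Finset I) (a : I → X × X), (∀ i, a i ∈ d.A i) → ∑ i ∈ F, d.c i * q f (a i) ≤ 1}

noncomputable def Data.N (x : X) : ℝ := sSup ((fun f : X →L[ℝ] ℝ => f x) '' d.B)

noncomputable def Data.K : ℝ := 1 + 1 / d.c d.i0

lemma Data.K_pos : 0 < d.K := by
  have := d.c_pos d.i0
  unfold Data.K; positivity

lemma Data.mem_B_of_norm {f : X →L[ℝ] ℝ} (hf : ‖f‖ ≤ 1) : f ∈ d.B := by
  intro F a ha
  have h1 : ∀ y : X, ‖y‖ ≤ 1 → (f y) ^ 2 ≤ 1 := by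
    intro y hy
    have : |f y| ≤ 1 := by
      calc |f y| = ‖f y‖ := rfl
        _ ≤ ‖f‖ * ‖y‖ := f.le_opNorm y
        _ ≤ 1 * 1 := mul_le_mul hf hy (norm_nonneg _) zero_le_one
        _ = 1 := one_mul 1
    exact (sq_le_one_iff_abs_le_one _).2 this
  calc ∑ i ∈ F, d.c i * q f (a i) ≤ ∑ i ∈ F, d.c i * 2 := by
        refine Finset.sum_le_sum fun i _ => mul_le_mul_of_nonneg_left ?_ (d.c_pos i).le
        have := h1 _ (d.A_norm i _ (ha i)).1
        have := h1 _ (d.A_norm i _ (ha i)).2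
        unfold q; linarith
    _ = (∑ i ∈ F, d.c i) * 2 := by rw [Finset.sum_mul]
    _ ≤ 1 := by have := d.c_sum F; linarith

lemma Data.zero_mem_B : (0 : X →L[ℝ] ℝ) ∈ d.B := d.mem_B_of_norm (by simp)

lemma Data.neg_mem_B {f : X →L[ℝ] ℝ} (hf : f ∈ d.B) : -f ∈ d.B := by
  intro F a ha
  have := hf F a ha
  simpa [q] using this

lemma Data.single_le {f : X →L[ℝ] ℝ} (hf : f ∈ d.B) (i : I) (a : X × X) (ha : a ∈ d.A i) :
    d.c i * q f a ≤ 1 := by
  classical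
  choose a0 ha0 using d.A_ne
  have := hf {i} (Function.update a0 i a) (by
    intro j
    by_cases h : j = i
    · subst h; simpa using ha
    · simpa [h] using ha0 j)
  simpa using this

lemma Data.norm_le_K {f : X →L[ℝ] ℝ} (hf : f ∈ d.B) : ‖f‖ ≤ d.K := by
  refine ContinuousLinearMap.opNorm_le_of_unit_norm d.K_pos.le fun y hy => ?_
  have h := d.single_le hf d.i0 (y, 0) (d.A_i0 y hy.le)
  simp only [q, map_zero] at h
  have hc := d.c_pos d.i0
  have h2 : (f y) ^ 2 ≤ 1 / d.c d.i0 := by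
    rw [le_div_iff₀ hc]; linarith
  have h3 : |f y| ≤ 1 + (f y) ^ 2 := by
    rw [← sq_abs]; nlinarith [abs_nonneg (f y)]
  rw [Real.norm_eq_abs]; unfold Data.K; linarith

lemma Data.apply_le {f : X →L[ℝ] ℝ} (hf : f ∈ d.B) (x : X) : |f x| ≤ d.K * ‖x‖ :=
  (f.le_opNorm x).trans (mul_le_mul_of_nonneg_right (d.norm_le_K hf) (norm_nonneg _))

lemma Data.bdd (x : X) : BddAbove ((fun f : X →L[ℝ] ℝ => f x) '' d.B) :=
  ⟨d.K * ‖x‖, by rintro _ ⟨f, hf, rfl⟩; exact (le_abs_self _).trans (d.apply_le hf x)⟩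

lemma Data.le_N {f : X →L[ℝ] ℝ} (hf : f ∈ d.B) (x : X) : f x ≤ d.N x :=
  le_csSup (d.bdd x) ⟨f, hf, rfl⟩

lemma Data.N_le {x : X} {r : ℝ} (h : ∀ f ∈ d.B, f x ≤ r) : d.N x ≤ r :=
  csSup_le ⟨_, ⟨0, d.zero_mem_B, rfl⟩⟩ (by rintro _ ⟨f, hf, rfl⟩; exact h f hf)

lemma Data.N_add (x y : X) : d.N (x + y) ≤ d.N x + d.N y :=
  d.N_le fun f hf => by rw [map_add]; exact add_le_add (d.le_N hf x) (d.le_N hf y)

lemma Data.N_smul_le (r : ℝ) (x : X) : d.N (r • x) ≤ |r| * d.N x := by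
  refine d.N_le fun f hf => ?_
  rw [map_smul, smul_eq_mul]
  rcases le_total 0 r with h | h
  · rw [abs_of_nonneg h]; exact mul_le_mul_of_nonneg_left (d.le_N hf x) h
  · rw [abs_of_nonpos h]
    have := d.le_N (d.neg_mem_B hf) x
    simp only [neg_apply] at this
    nlinarith

lemma Data.N_nonneg (x : X) : 0 ≤ d.N x := by simpa using d.le_N d.zero_mem_B x

lemma Data.N_smul (r : ℝ) (x : X) : d.N (r • x) = |r| * d.N x := by
  refine le_antisymm (d.N_smul_le r x) ?_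
  rcases eq_or_ne r 0 with rfl | hr
  · simpa using d.N_nonneg 0
  · have h := d.N_smul_le r⁻¹ (r • x)
    rw [smul_smul, inv_mul_cancel₀ hr, one_smul, abs_inv] at h
    have hpos : 0 < |r| := abs_pos.2 hr
    calc |r| * d.N x ≤ |r| * (|r|⁻¹ * d.N (r • x)) := mul_le_mul_of_nonneg_left h hpos.le
      _ = d.N (r • x) := by field_simp

lemma Data.norm_le_N (x : X) : ‖x‖ ≤ d.N x := by
  obtain ⟨g, hg, hx⟩ := exists_dual_vector'' ℝ x
  have := d.le_N (d.mem_B_of_norm hg) x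
  rw [hx] at this
  exact this

lemma Data.N_le_norm (x : X) : d.N x ≤ d.K * ‖x‖ :=
  d.N_le fun _ hf => (le_abs_self _).trans (d.apply_le hf x)

lemma Data.mem_B_iff (f : X →L[ℝ] ℝ) : (∀ z, f z ≤ d.N z) ↔ f ∈ d.B := by
  refine ⟨fun h => ?_, fun hf z => d.le_N hf z⟩
  intro F a ha
  set σ := ∑ i ∈ F, d.c i * q f (a i) with hσ
  set z : X := ∑ i ∈ F, d.c i • (f (a i).1 • (a i).1 + f (a i).2 • (a i).2) with hz
  have hfz : f z = σ := by
    rw [hz, map_sum, hσ]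
    refine Finset.sum_congr rfl fun i _ => ?_
    simp only [map_smul, map_add, smul_eq_mul, q]; ring
  have hN : d.N z ≤ (σ + 1) / 2 := by
    refine d.N_le fun g hg => ?_
    have h1 := hg F a ha
    have h2 : g z ≤ (σ + ∑ i ∈ F, d.c i * q g (a i)) / 2 := by
      rw [hz, map_sum, hσ, ← Finset.sum_add_distrib, Finset.sum_div]
      refine Finset.sum_le_sum fun i _ => ?_
      simp only [map_smul, map_add, smul_eq_mul, q]
      have hc := d.c_pos i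
      nlinarith [mul_nonneg hc.le (sq_nonneg (f (a i).1 - g (a i).1)),
        mul_nonneg hc.le (sq_nonneg (f (a i).2 - g (a i).2))]
    linarith
  have := h z
  linarith

/-- The envelope of the new norm for the subspace Y. -/
noncomputable def Data.env (Y : Submodule ℝ (X →L[ℝ] ℝ)) (x : X) : ℝ :=
  sSup {r : ℝ | ∃ f ∈ Y, (∀ z : X, f z ≤ d.N z) ∧ f x = r}

variable (Y : Submodule ℝ (X →L[ℝ] ℝ))

lemma Data.le_env {f : X →L[ℝ] ℝ} (hY : f ∈ Y) (hf : f ∈ d.B) (x : X) : f x ≤ d.env Y x := by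
  refine le_csSup ⟨d.K * ‖x‖, ?_⟩ ⟨f, hY, (d.mem_B_iff f).2 hf, rfl⟩
  rintro _ ⟨g, -, hg, rfl⟩
  exact (le_abs_self _).trans (d.apply_le ((d.mem_B_iff g).1 hg) x)

lemma Data.env_le {x : X} {r : ℝ} (h : ∀ f ∈ Y, f ∈ d.B → f x ≤ r) : d.env Y x ≤ r := by
  refine csSup_le ⟨0, 0, Y.zero_mem, (d.mem_B_iff 0).2 d.zero_mem_B, rfl⟩ ?_
  rintro _ ⟨g, hY, hg, rfl⟩
  exact h g hY ((d.mem_B_iff g).1 hg)

/-- Slices. -/
def Data.Sl (x : X) (δ : ℝ) : Set (X →L[ℝ] ℝ) := {f | f ∈ Y ∧ f ∈ d.B ∧ d.env Y x - δ < f x}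

lemma Data.Sl_nonempty (x : X) {δ : ℝ} (hδ : 0 < δ) : (d.Sl Y x δ).Nonempty := by
  by_contra h
  have : d.env Y x ≤ d.env Y x - δ := by
    refine d.env_le Y fun f hY hf => ?_
    by_contra h'
    exact h ⟨f, hY, hf, not_le.1 h'⟩
  linarith

/-- The filter of slices. -/
noncomputable def Data.filt (x : X) : Filter (X →L[ℝ] ℝ) :=
  comap (fun f : X →L[ℝ] ℝ => f x) (𝓝 (d.env Y x)) ⊓ 𝓟 {f | f ∈ Y ∧ f ∈ d.B}

lemma Data.mem_filt_iff (x : X) (S : Set (X →L[ℝ] ℝ)) :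
    S ∈ d.filt Y x ↔ ∃ δ > 0, d.Sl Y x δ ⊆ S := by
  unfold Data.filt
  rw [mem_inf_principal, mem_comap]
  constructor
  · rintro ⟨t, ht, h⟩
    obtain ⟨δ, hδ, hb⟩ := Metric.mem_nhds_iff.1 ht
    refine ⟨δ, hδ, fun f ⟨h1, h2, h3⟩ => h (hb ?_) ⟨h1, h2⟩⟩
    have := d.le_env Y h1 h2 x
    rw [Metric.mem_ball, Real.dist_eq, abs_lt]
    constructor <;> linarith
  · rintro ⟨δ, hδ, h⟩
    exact ⟨Set.Ioi (d.env Y x - δ), Ioi_mem_nhds (by linarith),
      fun f hf hf' => h ⟨hf'.1, hf'.2, hf⟩⟩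

lemma Data.filt_neBot (x : X) : (d.filt Y x).NeBot := by
  rw [← forall_mem_nonempty_iff_neBot]
  intro S hS
  obtain ⟨δ, hδ, h⟩ := (d.mem_filt_iff Y x S).1 hS
  exact (d.Sl_nonempty Y x hδ).mono h

lemma Data.filt_norm (x : X) : ∀ᶠ f in d.filt Y x, ‖f‖ ≤ d.K :=
  (d.mem_filt_iff Y x _).2 ⟨1, one_pos, fun _ hf => d.norm_le_K hf.2.1⟩

/-- Along the filter, three functionals share an almost optimal pair on which they almost agree. -/
def Good (𝓕 : Filter (X →L[ℝ] ℝ)) (A : Set (X × X)) : Prop :=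
  ∀ η > (0 : ℝ), ∃ S ∈ 𝓕, ∀ f₁ ∈ S, ∀ f₂ ∈ S, ∀ f₃ ∈ S, ∃ a ∈ A,
    (∀ a' ∈ A, q f₁ a' ≤ q f₁ a + η) ∧ (∀ a' ∈ A, q f₂ a' ≤ q f₂ a + η) ∧
    |f₁ a.1 - f₂ a.1| ≤ η ∧ |f₁ a.2 - f₂ a.2| ≤ η ∧ |f₁ a.1 - f₃ a.1| ≤ η ∧ |f₁ a.2 - f₃ a.2| ≤ η

lemma Data.exists_config (x : X) {g : X →L[ℝ] ℝ} (hY : g ∈ Y) {lam : ℝ}
    (hl : 0 < lam) (hg : lam * d.env Y x < g x) :
    ∃ (F : Finset I) (a : I → X × X), (∀ i, a i ∈ d.A i) ∧
      lam ^ 2 < ∑ i ∈ F, d.c i * q g (a i) := by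
  by_contra h
  push Not at h
  have hB : lam⁻¹ • g ∈ d.B := by
    intro F a ha
    have h1 := h F a ha
    have h2 : ∑ i ∈ F, d.c i * q (lam⁻¹ • g) (a i) =
        (lam ^ 2)⁻¹ * ∑ i ∈ F, d.c i * q g (a i) := by
      rw [Finset.mul_sum]
      refine Finset.sum_congr rfl fun i _ => ?_
      simp only [q, smul_apply, smul_eq_mul]
      field_simp
    rw [h2, inv_mul_le_iff₀ (by positivity)]
    linarith
  have := d.le_env Y (Y.smul_mem lam⁻¹ hY) hB x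
  simp only [smul_apply, smul_eq_mul] at this
  rw [inv_mul_le_iff₀ hl] at this
  linarith

lemma Data.good (x : X) (hρ : 0 < d.env Y x) (i : I) : Good (d.filt Y x) (d.A i) := by
  classical
  intro η hη
  set ρ := d.env Y x with hρdef
  have hc := d.c_pos i
  obtain ⟨θ, hθ0, hθ1, hθ2, hθ3⟩ : ∃ θ : ℝ, 0 < θ ∧ θ ≤ 1 / 2 ∧ 6 * θ ≤ d.c i * η ∧
      18 * θ ≤ d.c i * η ^ 2 := by
    refine ⟨min (1 / 2) (min (d.c i * η / 6) (d.c i * η ^ 2 / 18)), by positivity,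
      min_le_left _ _, ?_, ?_⟩
    · have := (min_le_right (1 / 2 : ℝ) _).trans (min_le_left (d.c i * η / 6) (d.c i * η ^ 2 / 18))
      linarith
    · have := (min_le_right (1 / 2 : ℝ) _).trans (min_le_right (d.c i * η / 6) (d.c i * η ^ 2 / 18))
      linarith
  refine ⟨d.Sl Y x (θ * ρ), (d.mem_filt_iff Y x _).2 ⟨θ * ρ, by positivity, subset_rfl⟩, ?_⟩
  rintro f₁ ⟨y1, b1, s1⟩ f₂ ⟨y2, b2, s2⟩ f₃ ⟨y3, b3, s3⟩
  set g : X →L[ℝ] ℝ := (1 / 3 : ℝ) • (f₁ + f₂ + f₃) with hg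
  have hgY : g ∈ Y := Y.smul_mem _ (Y.add_mem (Y.add_mem y1 y2) y3)
  have hgapp : ∀ z, g z = (f₁ z + f₂ z + f₃ z) / 3 := by
    intro z; simp only [hg, smul_apply, add_apply,
      smul_eq_mul]; ring
  obtain ⟨F, a, ha, hlt⟩ := d.exists_config Y x hgY (lam := 1 - θ) (by linarith)
    (by rw [hgapp]; linarith)
  have hsplit : ∑ j ∈ F, d.c j * q g (a j) ≤
      ∑ j ∈ F.erase i, d.c j * q g (a j) + d.c i * q g (a i) := by
    by_cases hi : i ∈ F
    · rw [Finset.sum_erase_add _ _ hi]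
    · rw [Finset.erase_eq_of_notMem hi]
      have := mul_nonneg hc.le (q_nonneg g (a i))
      linarith
  have hconv : ∑ j ∈ F.erase i, d.c j * q g (a j) ≤
      (∑ j ∈ F.erase i, d.c j * q f₁ (a j) + ∑ j ∈ F.erase i, d.c j * q f₂ (a j) +
        ∑ j ∈ F.erase i, d.c j * q f₃ (a j)) / 3 := by
    rw [← Finset.sum_add_distrib, ← Finset.sum_add_distrib, Finset.sum_div]
    refine Finset.sum_le_sum fun j _ => ?_
    have hj := d.c_pos j
    have : q g (a j) ≤ (q f₁ (a j) + q f₂ (a j) + q f₃ (a j)) / 3 := by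
      simp only [q, hgapp]
      nlinarith [sq_nonneg (f₁ (a j).1 - f₂ (a j).1), sq_nonneg (f₁ (a j).1 - f₃ (a j).1),
        sq_nonneg (f₂ (a j).1 - f₃ (a j).1), sq_nonneg (f₁ (a j).2 - f₂ (a j).2),
        sq_nonneg (f₁ (a j).2 - f₃ (a j).2), sq_nonneg (f₂ (a j).2 - f₃ (a j).2)]
    nlinarith
  have halt : ∀ f ∈ d.B, ∀ a' ∈ d.A i,
      ∑ j ∈ F.erase i, d.c j * q f (a j) + d.c i * q f a' ≤ 1 := by
    intro f hf a' ha'
    have h := hf (insert i (F.erase i)) (Function.update a i a') (by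
      intro j
      by_cases h : j = i
      · subst h; simpa using ha'
      · simpa [h] using ha j)
    rw [Finset.sum_insert (Finset.notMem_erase i F), Function.update_self] at h
    have h2 : ∑ j ∈ F.erase i, d.c j * q f (Function.update a i a' j) =
        ∑ j ∈ F.erase i, d.c j * q f (a j) := by
      refine Finset.sum_congr rfl fun j hj => ?_
      rw [Function.update_of_ne (Finset.ne_of_mem_erase hj)]
    linarith
  set V : ℝ := ((f₁ (a i).1 - f₂ (a i).1) ^ 2 + (f₁ (a i).1 - f₃ (a i).1) ^ 2 +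
    (f₂ (a i).1 - f₃ (a i).1) ^ 2 + (f₁ (a i).2 - f₂ (a i).2) ^ 2 +
    (f₁ (a i).2 - f₃ (a i).2) ^ 2 + (f₂ (a i).2 - f₃ (a i).2) ^ 2) with hV
  have hvar : q g (a i) = (q f₁ (a i) + q f₂ (a i) + q f₃ (a i)) / 3 - V / 9 := by
    simp only [q, hgapp, hV]; ring
  have hV0 : 0 ≤ V := by rw [hV]; positivity
  have main : ∀ a₁ ∈ d.A i, ∀ a₂ ∈ d.A i,
      d.c i * ((q f₁ a₁ - q f₁ (a i)) + (q f₂ a₂ - q f₂ (a i)) + V / 3) ≤ 6 * θ := by
    intro a₁ h₁ a₂ h₂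
    have e1 := halt f₁ b1 a₁ h₁
    have e2 := halt f₂ b2 a₂ h₂
    have e3 := halt f₃ b3 (a i) (ha i)
    rw [hvar] at hsplit
    nlinarith [sq_nonneg θ]
  have hVle : V ≤ η ^ 2 := by
    have := main (a i) (ha i) (a i) (ha i)
    have h2 : d.c i * V ≤ d.c i * η ^ 2 := by linarith
    exact le_of_mul_le_mul_left h2 hc
  have habs : ∀ t : ℝ, t ^ 2 ≤ V → |t| ≤ η := fun t ht => abs_le_of_sq_le_sq' (ht.trans hVle) hη.le |> abs_le.2
  refine ⟨a i, ha i, fun a' ha' => ?_, fun a' ha' => ?_, habs _ ?_, habs _ ?_, habs _ ?_,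
    habs _ ?_⟩
  · have := main a' ha' (a i) (ha i)
    have h2 : d.c i * (q f₁ a' - q f₁ (a i)) ≤ d.c i * η := by nlinarith [mul_nonneg hc.le hV0]
    have := le_of_mul_le_mul_left h2 hc
    linarith
  · have := main (a i) (ha i) a' ha'
    have h2 : d.c i * (q f₂ a' - q f₂ (a i)) ≤ d.c i * η := by nlinarith [mul_nonneg hc.le hV0]
    have := le_of_mul_le_mul_left h2 hc
    linarith
  all_goals
    rw [hV]
    linarith [sq_nonneg (f₁ (a i).1 - f₂ (a i).1), sq_nonneg (f₁ (a i).1 - f₃ (a i).1),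
        sq_nonneg (f₂ (a i).1 - f₃ (a i).1), sq_nonneg (f₁ (a i).2 - f₂ (a i).2),
        sq_nonneg (f₁ (a i).2 - f₃ (a i).2), sq_nonneg (f₂ (a i).2 - f₃ (a i).2)]

lemma Data.gateaux (x : X)
    (hC : ∀ h : X, Cauchy (map (fun f : X →L[ℝ] ℝ => f h) (d.filt Y x))) :
    ∃ g : X →L[ℝ] ℝ, ∀ h : X, HasDerivAt (fun t : ℝ => d.env Y (x + t • h)) (g h) 0 := by
  have hne := d.filt_neBot Y x
  choose G hG using fun h => (cauchy_map_iff_exists_tendsto).1 (hC h)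
  have hadd : ∀ u v, G (u + v) = G u + G v := fun u v =>
    tendsto_nhds_unique (hG (u + v)) (by simpa only [map_add] using (hG u).add (hG v))
  have hsmul : ∀ (r : ℝ) u, G (r • u) = r * G u := fun r u =>
    tendsto_nhds_unique (hG (r • u)) (by simpa only [map_smul, smul_eq_mul] using (hG u).const_mul r)
  have hbd : ∀ u, |G u| ≤ d.K * ‖u‖ := fun u => by
    refine le_of_tendsto (hG u).abs ?_
    filter_upwards [d.filt_norm Y x] with f hf
    exact (f.le_opNorm u).trans (mul_le_mul_of_nonneg_right hf (norm_nonneg _))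
  let L : X →ₗ[ℝ] ℝ := { toFun := G, map_add' := hadd, map_smul' := hsmul }
  refine ⟨L.mkContinuous d.K hbd, fun h => ?_⟩
  change HasDerivAt _ (G h) 0
  rw [hasDerivAt_iff_isLittleO_nhds_zero, Asymptotics.isLittleO_iff]
  intro ε hε
  have hmem : {f : X →L[ℝ] ℝ | |f h - G h| ≤ ε} ∈ d.filt Y x := by
    have := (hG h).eventually (Metric.closedBall_mem_nhds (G h) hε)
    filter_upwards [this] with f hf
    simpa [Real.dist_eq] using hf
  obtain ⟨δ, hδ, hS⟩ := (d.mem_filt_iff Y x _).1 hmem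
  set M := 2 * d.K * ‖h‖ + 1 with hM
  have hK := d.K_pos
  have hMpos : 0 < M := by positivity
  filter_upwards [Metric.ball_mem_nhds (0 : ℝ) (div_pos hδ hMpos)] with t ht
  rw [Metric.mem_ball, Real.dist_eq, sub_zero, lt_div_iff₀ hMpos] at ht
  simp only [zero_add, zero_smul, add_zero, smul_eq_mul, Real.norm_eq_abs]
  have hmul : ∀ s : ℝ, |s| ≤ ε → |t * s| ≤ ε * |t| := fun s hs => by
    rw [abs_mul, mul_comm]; exact mul_le_mul_of_nonneg_right hs (abs_nonneg _)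
  rw [abs_le]
  constructor
  · refine le_of_forall_pos_le_add fun η hη => ?_
    obtain ⟨f, h1, h2, h3⟩ := d.Sl_nonempty Y x (lt_min hδ hη)
    have hf : |f h - G h| ≤ ε :=
      hS ⟨h1, h2, by linarith [min_le_left δ η]⟩
    have e1 := d.le_env Y h1 h2 (x + t • h)
    rw [map_add, map_smul, smul_eq_mul] at e1
    have e2 := abs_le.1 (hmul _ hf)
    have := min_le_right δ η
    nlinarith
  · have : d.env Y (x + t • h) ≤ d.env Y x + t * G h + ε * |t| := by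
      refine d.env_le Y fun f h1 h2 => ?_
      rw [map_add, map_smul, smul_eq_mul]
      have e0 := d.le_env Y h1 h2 x
      by_cases h3 : d.env Y x - δ < f x
      · have e2 := abs_le.1 (hmul _ (hS ⟨h1, h2, h3⟩))
        nlinarith
      · have e1 := d.apply_le h2 h
        have e2 := hbd h
        have e3 : |t * (f h - G h)| ≤ |t| * M := by
          rw [abs_mul]
          refine mul_le_mul_of_nonneg_left ?_ (abs_nonneg _)
          have := abs_sub (f h) (G h)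
          linarith
        have e4 := abs_le.1 e3
        have e5 : 0 ≤ ε * |t| := by positivity
        nlinarith
    linarith

end Pool.Agent.Lib.MP_aafae6_an
end

-- part Pool.Agent.Lib.MP_aafae6_an.Tree
section

/-!
The closed span of the initial segments of the binary tree of height omega plus one,
inside the bounded functions on the nodes.
-/

set_option autoImplicit false

open Filter Topology
open scoped ENNReal

namespace Pool.Agent.Lib.MP_aafae6_an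

abbrev Br := ℕ → Bool
abbrev D := ℕ × Br

def agree (β γ : Br) (n : ℕ) : Prop := ∀ i < n, β i = γ i

lemma agree.refl (β : Br) (n : ℕ) : agree β β n := fun _ _ => rfl
lemma agree.symm {β γ : Br} {n : ℕ} (h : agree β γ n) : agree γ β n := fun i hi => (h i hi).symm
lemma agree.trans {β γ ζ : Br} {n : ℕ} (h : agree β γ n) (h' : agree γ ζ n) : agree β ζ n :=
  fun i hi => (h i hi).trans (h' i hi)
lemma agree.mono {β γ : Br} {m n : ℕ} (h : agree β γ n) (hm : m ≤ n) : agree β γ m :=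
  fun i hi => h i (lt_of_lt_of_le hi hm)

abbrev Amb := lp (fun _ : D => ℝ) ∞

open Classical in
noncomputable def segFun (β : Br) (N : ℕ∞) (u : D) : ℝ :=
  if (u.1 : ℕ∞) ≤ N ∧ agree β u.2 u.1 then 1 else 0

noncomputable def segA (β : Br) (N : ℕ∞) : Amb :=
  ⟨segFun β N, memℓp_infty ⟨1, by
    rintro _ ⟨u, rfl⟩
    simp only [segFun]
    split_ifs <;> simp⟩⟩

noncomputable def XS : Submodule ℝ Amb :=
  (Submodule.span ℝ (Set.range fun p : Br × ℕ∞ => segA p.1 p.2)).topologicalClosure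

def XX : Type := XS

noncomputable instance : NormedAddCommGroup XX := inferInstanceAs (NormedAddCommGroup XS)

noncomputable instance : NormedSpace ℝ XX := inferInstanceAs (NormedSpace ℝ XS)

instance : CompleteSpace XX :=
  (Submodule.isClosed_topologicalClosure _).completeSpace_coe

noncomputable def seg (β : Br) (N : ℕ∞) : XX :=
  ⟨segA β N, Submodule.le_topologicalClosure _ (Submodule.subset_span ⟨(β, N), rfl⟩)⟩

noncomputable def ev (u : D) : XX →L[ℝ] ℝ :=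
  LinearMap.mkContinuous
    { toFun := fun y => (y.1 : D → ℝ) u, map_add' := fun _ _ => rfl, map_smul' := fun _ _ => rfl }
    1 (fun y => by rw [one_mul]; exact lp.norm_apply_le_norm (by simp) y.1 u)

lemma ev_apply (u : D) (y : XX) : ev u y = (y.1 : D → ℝ) u := rfl

lemma ev_seg (u : D) (β : Br) (N : ℕ∞) : ev u (seg β N) = segFun β N u := rfl

lemma abs_ev_le (u : D) (y : XX) : |ev u y| ≤ ‖y‖ :=
  lp.norm_apply_le_norm (by simp) y.1 u

lemma norm_le_of_ev {y : XX} {C : ℝ} (hC : 0 ≤ C) (h : ∀ u, |ev u y| ≤ C) : ‖y‖ ≤ C :=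
  lp.norm_le_of_forall_le (f := y.1) hC h

lemma dense_span :
    Dense ((Submodule.span ℝ (Set.range fun p : Br × ℕ∞ => seg p.1 p.2) : Submodule ℝ XX) :
      Set XX) := by
  intro y
  rw [Metric.mem_closure_iff]
  intro ε hε
  have hy : y.1 ∈ closure ((Submodule.span ℝ (Set.range fun p : Br × ℕ∞ => segA p.1 p.2) :
      Submodule ℝ Amb) : Set Amb) := y.2
  obtain ⟨z, hz, hd⟩ := Metric.mem_closure_iff.1 hy ε hε
  have : ∃ w ∈ Submodule.span ℝ (Set.range fun p : Br × ℕ∞ => seg p.1 p.2), w.1 = z := by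
    clear hd
    induction hz using Submodule.span_induction with
    | mem x hx =>
      obtain ⟨p, rfl⟩ := hx
      exact ⟨seg p.1 p.2, Submodule.subset_span ⟨p, rfl⟩, rfl⟩
    | zero => exact ⟨0, Submodule.zero_mem _, rfl⟩
    | add x y _ _ hx hy =>
      obtain ⟨w1, h1, rfl⟩ := hx
      obtain ⟨w2, h2, rfl⟩ := hy
      exact ⟨w1 + w2, Submodule.add_mem _ h1 h2, rfl⟩
    | smul a x _ hx =>
      obtain ⟨w1, h1, rfl⟩ := hx
      exact ⟨a • w1, Submodule.smul_mem _ _ h1, rfl⟩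
  obtain ⟨w, hw, rfl⟩ := this
  exact ⟨w, hw, hd⟩

lemma seg_congr {α β : Br} {k : ℕ} (h : agree α β k) : seg α k = seg β k := by
  apply Subtype.ext
  apply Subtype.ext
  funext u
  change segFun α k u = segFun β k u
  unfold segFun
  have : ((u.1 : ℕ∞) ≤ k ∧ agree α u.2 u.1) ↔ ((u.1 : ℕ∞) ≤ k ∧ agree β u.2 u.1) := by
    refine and_congr_right fun hk => ?_
    have hk' : u.1 ≤ k := by exact_mod_cast hk
    exact ⟨fun h' => (h.mono hk').symm.trans h', fun h' => (h.mono hk').trans h'⟩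
  by_cases h1 : (u.1 : ℕ∞) ≤ k ∧ agree α u.2 u.1
  · rw [if_pos h1, if_pos (this.1 h1)]
  · rw [if_neg h1, if_neg (fun h2 => h1 (this.2 h2))]

open Classical in
lemma ev_diff (u : D) (β : Br) {N₁ N₂ : ℕ∞} (h : N₁ ≤ N₂) :
    ev u (seg β N₂ - seg β N₁) =
      if N₁ < u.1 ∧ (u.1 : ℕ∞) ≤ N₂ ∧ agree β u.2 u.1 then 1 else 0 := by
  rw [map_sub, ev_seg, ev_seg]
  unfold segFun
  by_cases ha : agree β u.2 u.1
  · by_cases h1 : (u.1 : ℕ∞) ≤ N₁
    · simp [ha, h1, h1.trans h, not_lt.2 h1]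
    · by_cases h2 : (u.1 : ℕ∞) ≤ N₂
      · simp [ha, h1, h2, not_le.1 h1]
      · simp [h1, h2]
  · simp [ha]

lemma abs_ev_diff_le (u : D) (β : Br) {N₁ N₂ : ℕ∞} (h : N₁ ≤ N₂) :
    |ev u (seg β N₂ - seg β N₁)| ≤ 1 := by
  rw [ev_diff u β h]; split_ifs <;> simp

lemma norm_diff_le (β : Br) {N₁ N₂ : ℕ∞} (h : N₁ ≤ N₂) : ‖seg β N₂ - seg β N₁‖ ≤ 1 :=
  norm_le_of_ev zero_le_one fun u => abs_ev_diff_le u β h

lemma norm_seg_le (β : Br) (N : ℕ∞) : ‖seg β N‖ ≤ 1 :=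
  norm_le_of_ev zero_le_one fun u => by
    rw [ev_seg]; unfold segFun; split_ifs <;> simp

lemma ev_diff_ne {u : D} {β : Br} {N₁ N₂ : ℕ∞} (h : N₁ ≤ N₂)
    (hne : ev u (seg β N₂ - seg β N₁) ≠ 0) :
    N₁ < u.1 ∧ (u.1 : ℕ∞) ≤ N₂ ∧ agree β u.2 u.1 := by
  rw [ev_diff u β h] at hne
  by_contra hc
  exact hne (if_neg hc)

def Cone (α : Br) (k : ℕ) : Set D := {u | k < u.1 ∧ agree α u.2 k}

lemma Cone_anti (α : Br) {k J : ℕ} (h : k ≤ J) : Cone α J ⊆ Cone α k :=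
  fun _ hu => ⟨lt_of_le_of_lt h hu.1, hu.2.mono h⟩

lemma Cone_congr {α β : Br} {k : ℕ} (h : agree α β k) : Cone α k = Cone β k := by
  ext u
  exact and_congr_right fun _ => ⟨fun h' => h.symm.trans h', fun h' => h.trans h'⟩

lemma norm_add_le_one {y z : XX} (hy : ‖y‖ ≤ 1) (hz : ‖z‖ ≤ 1)
    (h : ∀ u, ev u y = 0 ∨ ev u z = 0) : ‖y + z‖ ≤ 1 :=
  norm_le_of_ev zero_le_one fun u => by
    rw [map_add]
    rcases h u with h | h
    · rw [h, zero_add]; exact (abs_ev_le u z).trans hz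
    · rw [h, add_zero]; exact (abs_ev_le u y).trans hy

/-- A functional has small mass near a branch, off the end point of the branch. -/
lemma small_near (f : XX →L[ℝ] ℝ) (α : Br) {ε : ℝ} (hε : 0 < ε) :
    ∃ J₀ : ℕ, ∀ J : ℕ, J₀ ≤ J → ∀ (β : Br) (N : ℕ∞), agree α β J → (J : ℕ∞) ≤ N →
      ¬ (β = α ∧ N = ⊤) → |f (seg β N - seg β J)| ≤ ε := by
  by_contra hcon
  push Not at hcon
  have key : ∀ n : ℕ, ∃ (J₀ : ℕ) (y : XX), ‖y‖ ≤ 1 ∧ (∀ u ∈ Cone α J₀, ev u y = 0) ∧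
      n * ε ≤ f y := by
    intro n
    induction n with
    | zero => exact ⟨0, 0, by simp, by simp, by simp⟩
    | succ n ih =>
      obtain ⟨J₀, y, hy1, hy2, hy3⟩ := ih
      obtain ⟨J, hJ, β, N, hag, hN, hne, hlt⟩ := hcon J₀
      set w := seg β N - seg β J with hw
      obtain ⟨σ, hσ, hσ'⟩ : ∃ σ : ℝ, |σ| = 1 ∧ σ * f w = |f w| := by
        rcases le_total 0 (f w) with h | h
        · exact ⟨1, by simp, by rw [one_mul, abs_of_nonneg h]⟩
        · exact ⟨-1, by simp, by rw [neg_one_mul, abs_of_nonpos h]⟩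
      obtain ⟨J₁, hJ₁, hvan⟩ : ∃ J₁ : ℕ, J ≤ J₁ ∧ ∀ u ∈ Cone α J₁, ev u w = 0 := by
        by_cases hb : β = α
        · have hN' := hne hb
          obtain ⟨m, rfl⟩ := ENat.ne_top_iff_exists.1 hN'
          refine ⟨max J m, le_max_left _ _, fun u hu => ?_⟩
          by_contra h0
          obtain ⟨-, h2, -⟩ := ev_diff_ne hN h0
          have h2' : u.1 ≤ m := by exact_mod_cast h2
          have := hu.1
          omega
        · obtain ⟨i, hi⟩ := Function.ne_iff.1 hb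
          refine ⟨max J (i + 1), le_max_left _ _, fun u hu => ?_⟩
          by_contra h0
          obtain ⟨-, -, h3⟩ := ev_diff_ne hN h0
          have h4 := hu.1
          exact hi ((h3 i (by omega)).trans (hu.2 i (by omega)).symm)
      refine ⟨J₁, y + σ • w, norm_add_le_one hy1 ?_ fun u => ?_, fun u hu => ?_, ?_⟩
      · rw [norm_smul, Real.norm_eq_abs, hσ, one_mul]; exact norm_diff_le β hN
      · by_cases h0 : ev u w = 0
        · right; rw [map_smul, h0, smul_zero]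
        · left
          obtain ⟨h1, -, h3⟩ := ev_diff_ne hN h0
          have h1' : J < u.1 := by exact_mod_cast h1
          exact hy2 u (Cone_anti α hJ ⟨h1', hag.trans (h3.mono h1'.le)⟩)
      · rw [map_add, map_smul, hvan u hu, hy2 u (Cone_anti α (hJ.trans hJ₁) hu)]; simp
      · rw [map_add, map_smul, smul_eq_mul, hσ']
        push_cast
        linarith
  obtain ⟨n, hn⟩ := exists_nat_gt (‖f‖ / ε)
  obtain ⟨J₀, y, hy1, -, hy3⟩ := key n
  have h1 : f y ≤ ‖f‖ := by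
    calc f y ≤ |f y| := le_abs_self _
      _ ≤ ‖f‖ * ‖y‖ := f.le_opNorm y
      _ ≤ ‖f‖ * 1 := mul_le_mul_of_nonneg_left hy1 (norm_nonneg _)
      _ = ‖f‖ := mul_one _
  rw [div_lt_iff₀ hε] at hn
  linarith

def Mset (α : Br) (k : ℕ) : Set XX := {y | ‖y‖ ≤ 1 ∧ ∀ u, u ∉ Cone α k → ev u y = 0}

noncomputable def mass (f : XX →L[ℝ] ℝ) (α : Br) (k : ℕ) : ℝ :=
  sSup ((fun y => f y) '' Mset α k)

lemma zero_mem_Mset (α : Br) (k : ℕ) : (0 : XX) ∈ Mset α k := ⟨by simp, by simp⟩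

lemma neg_mem_Mset {α : Br} {k : ℕ} {y : XX} (hy : y ∈ Mset α k) : -y ∈ Mset α k :=
  ⟨by simpa using hy.1, fun u hu => by rw [map_neg, hy.2 u hu, neg_zero]⟩

lemma le_mass (f : XX →L[ℝ] ℝ) {α : Br} {k : ℕ} {y : XX} (hy : y ∈ Mset α k) :
    f y ≤ mass f α k := by
  refine le_csSup ⟨‖f‖, ?_⟩ ⟨y, hy, rfl⟩
  rintro _ ⟨z, hz, rfl⟩
  calc f z ≤ |f z| := le_abs_self _
    _ ≤ ‖f‖ * ‖z‖ := f.le_opNorm z
    _ ≤ ‖f‖ * 1 := mul_le_mul_of_nonneg_left hz.1 (norm_nonneg _)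
    _ = ‖f‖ := mul_one _

lemma abs_le_mass (f : XX →L[ℝ] ℝ) {α : Br} {k : ℕ} {y : XX} (hy : y ∈ Mset α k) :
    |f y| ≤ mass f α k := by
  have h1 := le_mass f hy
  have h2 := le_mass f (neg_mem_Mset hy)
  rw [map_neg] at h2
  exact abs_le.2 ⟨by linarith, h1⟩

lemma mass_le {f : XX →L[ℝ] ℝ} {α : Br} {k : ℕ} {r : ℝ} (h : ∀ y ∈ Mset α k, f y ≤ r) :
    mass f α k ≤ r :=
  csSup_le ⟨_, 0, zero_mem_Mset α k, rfl⟩ (by rintro _ ⟨y, hy, rfl⟩; exact h y hy)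

lemma mass_nonneg (f : XX →L[ℝ] ℝ) (α : Br) (k : ℕ) : 0 ≤ mass f α k := by
  simpa using le_mass f (zero_mem_Mset α k)

lemma mass_split (f : XX →L[ℝ] ℝ) (α : Br) {k J : ℕ} (hkJ : k ≤ J) {y : XX}
    (hy : y ∈ Mset α k) (hv : ∀ u ∈ Cone α J, ev u y = 0) :
    |f y| ≤ mass f α k - mass f α J := by
  have aux : ∀ y ∈ Mset α k, (∀ u ∈ Cone α J, ev u y = 0) → f y ≤ mass f α k - mass f α J := by
    intro y hy hv
    have : mass f α J ≤ mass f α k - f y := by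
      refine mass_le fun z hz => ?_
      have hmem : y + z ∈ Mset α k := by
        refine ⟨norm_add_le_one hy.1 hz.1 fun u => ?_, fun u hu => ?_⟩
        · by_cases hu : u ∈ Cone α J
          · exact Or.inl (hv u hu)
          · exact Or.inr (hz.2 u hu)
        · rw [map_add, hy.2 u hu, hz.2 u (fun h => hu (Cone_anti α hkJ h)), add_zero]
      have := le_mass f hmem
      rw [map_add] at this
      linarith
    linarith
  have h1 := aux y hy hv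
  have h2 := aux (-y) (neg_mem_Mset hy) (fun u hu => by rw [map_neg, hv u hu, neg_zero])
  rw [map_neg] at h2
  exact abs_le.2 ⟨by linarith, h1⟩

lemma diff_small (f : XX →L[ℝ] ℝ) {α β : Br} {k J : ℕ} (hkJ : k ≤ J) (hag : agree α β k)
    {N₁ N₂ : ℕ∞} (h1 : (k : ℕ∞) ≤ N₁) (h2 : N₁ ≤ N₂) (hout : ¬ (agree α β J ∧ (J : ℕ∞) < N₂)) :
    |f (seg β N₂ - seg β N₁)| ≤ mass f α k - mass f α J := by
  refine mass_split f α hkJ ⟨norm_diff_le β h2, fun u hu => ?_⟩ fun u hu => ?_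
  · by_contra h0
    obtain ⟨e1, -, e3⟩ := ev_diff_ne h2 h0
    have e1' : k < u.1 := by exact_mod_cast lt_of_le_of_lt h1 e1
    exact hu ⟨e1', hag.trans (e3.mono e1'.le)⟩
  · by_contra h0
    obtain ⟨-, e2, e3⟩ := ev_diff_ne h2 h0
    refine hout ⟨hu.2.trans (e3.mono hu.1.le).symm, lt_of_lt_of_le ?_ e2⟩
    exact_mod_cast hu.1

end Pool.Agent.Lib.MP_aafae6_an
end

-- part Pool.Agent.Lib.MP_aafae6_an.Cauchy
section

/-!
Along a filter that is good for the three families, all evaluations are Cauchy.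
-/

set_option autoImplicit false

open Filter Topology
open scoped ENNReal

namespace Pool.Agent.Lib.MP_aafae6_an

def A1 (α : Br) (k : ℕ) : Set (XX × XX) := {(seg α k, 0)}

def A2 (α : Br) (k : ℕ) : Set (XX × XX) := {a | a.1 ∈ Mset α k ∧ a.2 = 0}

def A3 (α : Br) (k : ℕ) : Set (XX × XX) :=
  {a | ∃ (β : Br) (N N' : ℕ∞), agree α β k ∧ (k : ℕ∞) ≤ N ∧ N ≤ N' ∧
    a = (seg β N - seg β k, seg β N' - seg β N)}

lemma A1_congr {α β : Br} {k : ℕ} (h : agree α β k) : A1 α k = A1 β k := by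
  unfold A1; rw [seg_congr h]

lemma A2_congr {α β : Br} {k : ℕ} (h : agree α β k) : A2 α k = A2 β k := by
  unfold A2 Mset; rw [Cone_congr h]

lemma A3_congr {α β : Br} {k : ℕ} (h : agree α β k) : A3 α k = A3 β k := by
  ext a
  constructor
  · rintro ⟨γ, N, N', h1, h2⟩; exact ⟨γ, N, N', h.symm.trans h1, h2⟩
  · rintro ⟨γ, N, N', h1, h2⟩; exact ⟨γ, N, N', h.trans h1, h2⟩

def Cau (𝓕 : Filter (XX →L[ℝ] ℝ)) (ψ : (XX →L[ℝ] ℝ) → ℝ) : Prop :=
  ∀ ε > (0 : ℝ), ∃ S ∈ 𝓕, ∀ f ∈ S, ∀ g ∈ S, |ψ f - ψ g| ≤ ε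

variable {𝓕 : Filter (XX →L[ℝ] ℝ)}

lemma Cau.cauchy [𝓕.NeBot] {ψ : (XX →L[ℝ] ℝ) → ℝ} (h : Cau 𝓕 ψ) : Cauchy (map ψ 𝓕) := by
  rw [Metric.cauchy_iff]
  refine ⟨inferInstance, fun ε hε => ?_⟩
  obtain ⟨S, hS, h'⟩ := h (ε / 2) (by positivity)
  refine ⟨ψ '' S, image_mem_map hS, ?_⟩
  rintro _ ⟨f, hf, rfl⟩ _ ⟨g, hg, rfl⟩
  rw [Real.dist_eq]
  linarith [h' f hf g hg]

lemma cau_node {α : Br} {k : ℕ} (h : Good 𝓕 (A1 α k)) : Cau 𝓕 (fun f => f (seg α k)) := by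
  intro ε hε
  obtain ⟨S, hS, h'⟩ := h ε hε
  refine ⟨S, hS, fun f hf g hg => ?_⟩
  obtain ⟨a, ha, -, -, h1, -⟩ := h' f hf g hg g hg
  rw [show a = (seg α k, 0) from ha] at h1
  exact h1

lemma cau_mass {α : Br} {k : ℕ} (h : Good 𝓕 (A2 α k)) : Cau 𝓕 (fun f => mass f α k) := by
  intro ε hε
  obtain ⟨S, hS, h'⟩ := h (min (ε / 2) ((ε / 2) ^ 2)) (by positivity)
  have aux : ∀ f ∈ S, ∀ g ∈ S, mass f α k ≤ mass g α k + ε := by
    intro f hf g hg
    obtain ⟨a, ha, h1, -, h2, -⟩ := h' f hf g hg g hg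
    refine mass_le fun y hy => ?_
    have e1 := h1 (y, 0) ⟨hy, rfl⟩
    simp only [q, ha.2, map_zero] at e1
    have e2 := min_le_left (ε / 2) ((ε / 2) ^ 2)
    have e3 := min_le_right (ε / 2) ((ε / 2) ^ 2)
    have e4 : |f y| ≤ |f a.1| + ε / 2 := by
      refine abs_le_of_sq_le_sq' ?_ (by positivity) |> abs_le.2
      have := abs_nonneg (f a.1)
      have := sq_abs (f a.1)
      nlinarith
    have e5 := abs_le_mass g ha.1
    have e6 := abs_sub_abs_le_abs_sub (f a.1) (g a.1)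
    have e7 := le_abs_self (f y)
    linarith
  refine ⟨S, hS, fun f hf g hg => abs_le.2 ⟨?_, ?_⟩⟩
  · linarith [aux g hg f hf]
  · linarith [aux f hf g hg]

lemma exists_level [𝓕.NeBot] (α : Br) (h : ∀ k, Good 𝓕 (A2 α k)) {ε : ℝ} (hε : 0 < ε) :
    ∃ k : ℕ, ∀ J : ℕ, k ≤ J → ∀ S ∈ 𝓕, ∃ l ∈ S, mass l α k - mass l α J ≤ 2 * ε := by
  choose M hM using fun k => (cauchy_map_iff_exists_tendsto).1 (cau_mass (h k)).cauchy
  have hM0 : ∀ k, 0 ≤ M k := fun k =>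
    ge_of_tendsto' (hM k) fun f => mass_nonneg f α k
  have hbdd : BddBelow (Set.range M) := ⟨0, by rintro _ ⟨k, rfl⟩; exact hM0 k⟩
  obtain ⟨k, hk⟩ := exists_lt_of_ciInf_lt (f := M) (a := iInf M + ε) (by linarith)
  refine ⟨k, fun J _ S hS => ?_⟩
  have hJ' : iInf M ≤ M J := ciInf_le hbdd J
  have ht := (hM k).sub (hM J)
  have hev : ∀ᶠ l in 𝓕, mass l α k - mass l α J < 2 * ε :=
    ht.eventually (gt_mem_nhds (by linarith))
  obtain ⟨l, h1, h2⟩ := (hev.and hS).exists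
  exact ⟨l, h2, h1.le⟩

lemma arithC {K ε τ μ b p r : ℝ} (hε : 0 < ε) (hε1 : ε ≤ 1) (hτ : 0 ≤ τ)
    (hK : (63 + 12 * K) * ε ≤ τ ^ 2) (hμ : |μ| ≤ K) (h1 : μ ^ 2 + b ^ 2 ≤ p ^ 2 + r ^ 2 + ε)
    (h2 : |p + r - μ| ≤ ε) (h3 : |p| ≤ 5 * ε ∨ |r| ≤ 5 * ε) : |b| ≤ τ := by
  wlog hp : |p| ≤ 5 * ε generalizing p r
  · exact this (p := r) (r := p) (by linarith) (by rwa [add_comm r p]) h3.symm
      (h3.resolve_left hp)
  have e1 : |r| ≤ |μ| + 6 * ε := by
    have := abs_le.1 hp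
    have := abs_le.1 h2
    have := le_abs_self μ
    have := neg_abs_le μ
    exact abs_le.2 ⟨by linarith, by linarith⟩
  have e2 : r ^ 2 ≤ (|μ| + 6 * ε) ^ 2 := by
    rw [← sq_abs r]; exact pow_le_pow_left₀ (abs_nonneg _) e1 2
  have e3 : p ^ 2 ≤ (5 * ε) ^ 2 := by
    rw [← sq_abs p]; exact pow_le_pow_left₀ (abs_nonneg _) hp 2
  have e4 := sq_abs μ
  have e5 : ε * ε ≤ ε := by nlinarith
  have e6 : |μ| * ε ≤ K * ε := mul_le_mul_of_nonneg_right hμ hε.le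
  refine abs_le.2 (abs_le_of_sq_le_sq' ?_ hτ)
  nlinarith

lemma arithB {K ε τ b p r : ℝ} (hε : 0 < ε) (hε1 : ε ≤ 1) (hτ : 0 ≤ τ) (hK0 : 0 ≤ K)
    (hK : (63 + 12 * K) * ε ≤ τ ^ 2) (h1 : b ^ 2 ≤ p ^ 2 + r ^ 2 + ε)
    (hp : |p| ≤ 5 * ε) (hr : |r| ≤ 5 * ε) : |b| ≤ τ := by
  have e2 : r ^ 2 ≤ (5 * ε) ^ 2 := by
    rw [← sq_abs r]; exact pow_le_pow_left₀ (abs_nonneg _) hr 2
  have e3 : p ^ 2 ≤ (5 * ε) ^ 2 := by
    rw [← sq_abs p]; exact pow_le_pow_left₀ (abs_nonneg _) hp 2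
  have e5 : ε * ε ≤ ε := by nlinarith
  have e6 : 0 ≤ K * ε := by positivity
  refine abs_le.2 (abs_le_of_sq_le_sq' ?_ hτ)
  nlinarith

lemma abs_le_add_of {a b s t : ℝ} (h1 : |a - b| ≤ s) (h2 : |b| ≤ t) : |a| ≤ s + t := by
  have := abs_le.1 h1
  have := abs_le.1 h2
  exact abs_le.2 ⟨by linarith, by linarith⟩

lemma cau_branch [𝓕.NeBot] {K : ℝ} (hK0 : 0 ≤ K) (hK : ∀ᶠ f in 𝓕, ‖f‖ ≤ K) (α : Br)
    (h1 : ∀ k, Good 𝓕 (A1 α k)) (h2 : ∀ k, Good 𝓕 (A2 α k)) (h3 : ∀ k, Good 𝓕 (A3 α k)) :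
    Cau 𝓕 (fun f => f (seg α ⊤)) := by
  intro ε₀ hε₀
  set τ := ε₀ / 4 with hτ
  have hτ0 : 0 < τ := by positivity
  obtain ⟨ε, hε, hε1, hε2, hε3⟩ : ∃ ε : ℝ, 0 < ε ∧ ε ≤ 1 ∧ (63 + 12 * K) * ε ≤ τ ^ 2 ∧
      10 * ε ≤ ε₀ := by
    refine ⟨min 1 (min (τ ^ 2 / (63 + 12 * K)) (ε₀ / 10)), by positivity, min_le_left _ _,
      ?_, ?_⟩
    · have := (min_le_right (1 : ℝ) _).trans (min_le_left (τ ^ 2 / (63 + 12 * K)) (ε₀ / 10))
      rw [le_div_iff₀ (by positivity)] at this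
      linarith
    · have := (min_le_right (1 : ℝ) _).trans (min_le_right (τ ^ 2 / (63 + 12 * K)) (ε₀ / 10))
      linarith
  obtain ⟨k, hk⟩ := exists_level α h2 hε
  obtain ⟨S₁, hS₁, hc⟩ := cau_node (h1 k) ε hε
  obtain ⟨S₃, hS₃, hg3⟩ := h3 k ε hε
  refine ⟨S₁ ∩ S₃ ∩ {f | ‖f‖ ≤ K}, inter_mem (inter_mem hS₁ hS₃) hK, ?_⟩
  rintro f ⟨⟨hf1, hf3⟩, hfK⟩ g ⟨⟨hg1, hg3'⟩, hgK⟩
  obtain ⟨Jf, hJf⟩ := small_near f α hε
  obtain ⟨Jg, hJg⟩ := small_near g α hε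
  obtain ⟨J, hkJ, hfJ, hgJ⟩ : ∃ J : ℕ, k ≤ J ∧ Jf ≤ J ∧ Jg ≤ J :=
    ⟨max k (max Jf Jg), le_max_left _ _, (le_max_left _ _).trans (le_max_right _ _),
      (le_max_right _ _).trans (le_max_right _ _)⟩
  obtain ⟨l, hl, hlm⟩ := hk J hkJ S₃ hS₃
  obtain ⟨a, ⟨β, N, N', hag, hkN, hNN, rfl⟩, of, og, d1, d2, d3, d4⟩ := hg3 f hf3 g hg3' l hl
  have hnode := hc f hf1 g hg1
  have hsk : seg β k = seg α k := seg_congr hag.symm
  have hkJ' : (k : ℕ∞) ≤ J := by exact_mod_cast hkJ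
  have hgl1 : |g (seg β N - seg β k) - l (seg β N - seg β k)| ≤ 2 * ε := by
    have := abs_le.1 d1
    have := abs_le.1 d3
    exact abs_le.2 ⟨by linarith, by linarith⟩
  have hgl2 : |g (seg β N' - seg β N) - l (seg β N' - seg β N)| ≤ 2 * ε := by
    have := abs_le.1 d2
    have := abs_le.1 d4
    exact abs_le.2 ⟨by linarith, by linarith⟩
  simp only at hnode d1 d2 d3 d4 ⊢
  by_cases hA : β = α ∧ N' = ⊤
  · obtain ⟨rfl, rfl⟩ := hA
    simp only [map_sub] at d1 d2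
    have := abs_le.1 d1
    have := abs_le.1 d2
    have := abs_le.1 hnode
    exact abs_le.2 ⟨by linarith, by linarith⟩
  by_cases hC : agree α β J ∧ (J : ℕ∞) < N'
  · obtain ⟨hagJ, hJN'⟩ := hC
    have hsJ : seg β J = seg α J := seg_congr hagJ.symm
    have hmemA : (seg α J - seg α k, seg α ⊤ - seg α J) ∈ A3 α k :=
      ⟨α, J, ⊤, agree.refl _ _, hkJ', le_top, rfl⟩
    have of' := of _ hmemA
    have og' := og _ hmemA
    simp only [q] at of' og'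
    have wf := hJf J hfJ β N' hagJ hJN'.le hA
    have wg := hJg J hgJ β N' hagJ hJN'.le hA
    have hμ : ∀ φ : XX →L[ℝ] ℝ, ‖φ‖ ≤ K → |φ (seg α J - seg α k)| ≤ K := fun φ hφ => by
      calc |φ (seg α J - seg α k)| ≤ ‖φ‖ * ‖seg α J - seg α k‖ := φ.le_opNorm _
        _ ≤ K * 1 := mul_le_mul hφ (norm_diff_le α hkJ') (norm_nonneg _) hK0
        _ = K := mul_one _
    have hsum : ∀ φ : XX →L[ℝ] ℝ, φ (seg β N - seg β k) + φ (seg β N' - seg β N) -
        φ (seg α J - seg α k) = φ (seg β N' - seg β J) := fun φ => by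
      rw [hsk, hsJ]; simp only [map_sub]; ring
    have hsmall : (|f (seg β N - seg β k)| ≤ 5 * ε ∨ |f (seg β N' - seg β N)| ≤ 5 * ε) ∧
        (|g (seg β N - seg β k)| ≤ 5 * ε ∨ |g (seg β N' - seg β N)| ≤ 5 * ε) := by
      by_cases hN : (J : ℕ∞) < N
      · have hA' : ¬ (β = α ∧ N = ⊤) := fun h => hA ⟨h.1, top_le_iff.1 (h.2 ▸ hNN)⟩
        have uf := hJf J hfJ β N hagJ hN.le hA'
        have ug := hJg J hgJ β N hagJ hN.le hA'
        simp only [map_sub] at uf ug wf wg ⊢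
        have := abs_le.1 uf
        have := abs_le.1 ug
        have := abs_le.1 wf
        have := abs_le.1 wg
        exact ⟨Or.inr (abs_le.2 ⟨by linarith, by linarith⟩),
          Or.inr (abs_le.2 ⟨by linarith, by linarith⟩)⟩
      · have e := (diff_small l hkJ hag le_rfl hkN (fun h => hN h.2)).trans hlm
        exact ⟨Or.inl ((abs_le_add_of d3 e).trans (by linarith)),
          Or.inl ((abs_le_add_of hgl1 e).trans (by linarith))⟩
    have bf := arithC hε hε1 hτ0.le hε2 (hμ f hfK) of' (by rw [hsum]; exact wf) hsmall.1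
    have bg := arithC hε hε1 hτ0.le hε2 (hμ g hgK) og' (by rw [hsum]; exact wg) hsmall.2
    rw [hsk] at d1
    rw [hsJ] at wf wg
    simp only [map_sub] at bf bg d1 d2 wf wg
    have := abs_le.1 bf
    have := abs_le.1 bg
    have := abs_le.1 d1
    have := abs_le.1 d2
    have := abs_le.1 wf
    have := abs_le.1 wg
    have := abs_le.1 hnode
    exact abs_le.2 ⟨by linarith, by linarith⟩
  · have e1 := (diff_small l hkJ hag le_rfl hkN
      (fun h => hC ⟨h.1, lt_of_lt_of_le h.2 hNN⟩)).trans hlm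
    have e2 := (diff_small l hkJ hag hkN hNN hC).trans hlm
    have hmemA : (seg α ⊤ - seg α k, seg α ⊤ - seg α ⊤) ∈ A3 α k :=
      ⟨α, ⊤, ⊤, agree.refl _ _, le_top, le_rfl, rfl⟩
    have of' := of _ hmemA
    have og' := og _ hmemA
    simp only [q, sub_self, map_zero] at of' og'
    have bf := arithB (b := f (seg α ⊤ - seg α k)) hε hε1 hτ0.le hK0 hε2 (by linarith)
      ((abs_le_add_of d3 e1).trans (by linarith)) ((abs_le_add_of d4 e2).trans (by linarith))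
    have bg := arithB (b := g (seg α ⊤ - seg α k)) hε hε1 hτ0.le hK0 hε2 (by linarith)
      ((abs_le_add_of hgl1 e1).trans (by linarith)) ((abs_le_add_of hgl2 e2).trans (by linarith))
    simp only [map_sub] at bf bg
    have := abs_le.1 bf
    have := abs_le.1 bg
    have := abs_le.1 hnode
    exact abs_le.2 ⟨by linarith, by linarith⟩

lemma cau_all [𝓕.NeBot] {K : ℝ} (hK0 : 0 ≤ K) (hK : ∀ᶠ f in 𝓕, ‖f‖ ≤ K)
    (h1 : ∀ α k, Good 𝓕 (A1 α k)) (h2 : ∀ α k, Good 𝓕 (A2 α k))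
    (h3 : ∀ α k, Good 𝓕 (A3 α k)) (h : XX) : Cau 𝓕 (fun f => f h) := by
  have hspan : ∀ w ∈ Submodule.span ℝ (Set.range fun p : Br × ℕ∞ => seg p.1 p.2),
      Cau 𝓕 (fun f => f w) := by
    intro w hw
    induction hw using Submodule.span_induction with
    | mem x hx =>
      obtain ⟨⟨α, N⟩, rfl⟩ := hx
      induction N using ENat.recTopCoe with
      | top => exact cau_branch hK0 hK α (h1 α) (h2 α) (h3 α)
      | coe k => exact cau_node (h1 α k)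
    | zero => exact fun ε hε => ⟨Set.univ, univ_mem, fun f _ g _ => by simpa using hε.le⟩
    | add x y _ _ hx hy =>
      intro ε hε
      obtain ⟨S, hS, e1⟩ := hx (ε / 2) (by positivity)
      obtain ⟨T, hT, e2⟩ := hy (ε / 2) (by positivity)
      refine ⟨S ∩ T, inter_mem hS hT, fun f hf g hg => ?_⟩
      have := abs_le.1 (e1 f hf.1 g hg.1)
      have := abs_le.1 (e2 f hf.2 g hg.2)
      simp only [map_add] at *
      exact abs_le.2 ⟨by linarith, by linarith⟩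
    | smul a x _ hx =>
      intro ε hε
      obtain ⟨S, hS, e1⟩ := hx (ε / (|a| + 1)) (by positivity)
      refine ⟨S, hS, fun f hf g hg => ?_⟩
      have e2 := e1 f hf g hg
      simp only [map_smul, smul_eq_mul] at e2 ⊢
      rw [← mul_sub, abs_mul]
      rw [le_div_iff₀ (by positivity)] at e2
      nlinarith [abs_nonneg (f x - g x), abs_nonneg a]
  intro ε hε
  obtain ⟨w, hw, hd⟩ := Metric.mem_closure_iff.1 (dense_span h) (ε / (4 * (K + 1)))
    (by positivity)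
  obtain ⟨S, hS, e1⟩ := hspan w hw (ε / 2) (by positivity)
  refine ⟨S ∩ {f | ‖f‖ ≤ K}, inter_mem hS hK, fun f hf g hg => ?_⟩
  have hb : ∀ φ : XX →L[ℝ] ℝ, ‖φ‖ ≤ K → |φ h - φ w| ≤ ε / 4 := fun φ hφ => by
    rw [← map_sub]
    rw [dist_eq_norm, lt_div_iff₀ (by positivity)] at hd
    calc |φ (h - w)| ≤ ‖φ‖ * ‖h - w‖ := φ.le_opNorm _
      _ ≤ K * ‖h - w‖ := mul_le_mul_of_nonneg_right hφ (norm_nonneg _)
      _ ≤ ε / 4 := by nlinarith [norm_nonneg (h - w)]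
  have := abs_le.1 (e1 f hf.1 g hg.1)
  have := abs_le.1 (hb f hf.2)
  have := abs_le.1 (hb g hg.2)
  exact abs_le.2 ⟨by linarith, by linarith⟩

end Pool.Agent.Lib.MP_aafae6_an
end

-- part Pool.Agent.Lib.MP_aafae6_an.NotWCG
section

/-!
The tree space does not embed into a weakly compactly generated space.
-/

set_option autoImplicit false

open Filter Topology

namespace Pool.Agent.Lib.MP_aafae6_an

variable {Z : Type} [NormedAddCommGroup Z] [NormedSpace ℝ Z]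

lemma weak_cont (ψ : Z →L[ℝ] ℝ) :
    Continuous (fun w : WeakSpace ℝ Z => ψ ((toWeakSpace ℝ Z).symm w)) :=
  WeakBilin.eval_continuous (topDualPairing ℝ Z).flip ψ

def piece (K : Set Z) (n M : ℕ) : Set Z :=
  {z | ∃ (t : Fin n → ℝ) (k : Fin n → Z), (∀ i, |t i| ≤ M) ∧ (∀ i, k i ∈ K) ∧
    z = ∑ i, t i • k i}

lemma mem_piece {K : Set Z} {z : Z} (hz : z ∈ Submodule.span ℝ K) :
    ∃ p : ℕ × ℕ, z ∈ piece K p.1 p.2 := by
  obtain ⟨n, f, g, rfl⟩ := Submodule.mem_span_set'.1 hz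
  obtain ⟨M, hM⟩ := exists_nat_ge (∑ i, |f i|)
  refine ⟨(n, M), f, fun i => g i, fun i => le_trans ?_ hM, fun i => (g i).2, rfl⟩
  exact Finset.single_le_sum (f := fun i => |f i|) (fun i _ => abs_nonneg _) (Finset.mem_univ i)

lemma compact_piece {K : Set Z} (hK : IsCompact ((toWeakSpace ℝ Z) '' K)) (n M : ℕ) :
    IsCompact ((toWeakSpace ℝ Z) '' piece K n M) := by
  have h1 : IsCompact (Set.pi Set.univ fun _ : Fin n => Set.Icc (-(M : ℝ)) M) :=
    isCompact_univ_pi fun _ => isCompact_Icc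
  have h2 : IsCompact (Set.pi Set.univ fun _ : Fin n => (toWeakSpace ℝ Z) '' K) :=
    isCompact_univ_pi fun _ => hK
  have hc : Continuous (fun p : (Fin n → ℝ) × (Fin n → WeakSpace ℝ Z) => ∑ i, p.1 i • p.2 i) := by
    fun_prop
  convert (h1.prod h2).image hc using 1
  ext w
  constructor
  · rintro ⟨_, ⟨t, k, ht, hk, rfl⟩, rfl⟩
    refine ⟨(t, fun i => toWeakSpace ℝ Z (k i)), ⟨fun i _ => abs_le.1 (ht i),
      fun i _ => ⟨k i, hk i, rfl⟩⟩, ?_⟩
    simp [map_sum]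
  · rintro ⟨⟨t, k⟩, ⟨ht, hk⟩, rfl⟩
    choose k' hk' hk'' using fun i => hk i (Set.mem_univ i)
    refine ⟨∑ i, t i • k' i, ⟨t, k', fun i => abs_le.2 (ht i (Set.mem_univ i)), hk', rfl⟩, ?_⟩
    simp only [map_sum, map_smul]
    exact Finset.sum_congr rfl fun i _ => by rw [hk'' i]

lemma piece_limit {K : Set Z} (hK : IsCompact ((toWeakSpace ℝ Z) '' K)) (n M : ℕ) {ι : Type}
    (V : Ultrafilter ι) (z : ι → Z) (hz : ∀ᶠ β in (V : Filter ι), z β ∈ piece K n M) :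
    ∃ w : Z, ∀ ψ : Z →L[ℝ] ℝ, Tendsto (fun β => ψ (z β)) V (𝓝 (ψ w)) := by
  obtain ⟨w, -, hw⟩ := (compact_piece hK n M).ultrafilter_le_nhds'
    (V.map fun β => toWeakSpace ℝ Z (z β)) (by
      rw [Ultrafilter.mem_map]
      filter_upwards [hz] with β hβ
      exact ⟨z β, hβ, rfl⟩)
  refine ⟨(toWeakSpace ℝ Z).symm w, fun ψ => ?_⟩
  exact ((weak_cont ψ).tendsto w).comp hw

lemma dual_limit (φ : ℕ → Z →L[ℝ] ℝ) {C : ℝ} (hφ : ∀ i, ‖φ i‖ ≤ C) (U : Ultrafilter ℕ) :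
    ∃ ψ : Z →L[ℝ] ℝ, ‖ψ‖ ≤ C ∧ ∀ z, Tendsto (fun i => φ i z) U (𝓝 (ψ z)) := by
  obtain ⟨w, hw1, hw⟩ := (WeakDual.isCompact_closedBall (𝕜 := ℝ) (E := Z) 0 C).ultrafilter_le_nhds'
    (U.map fun i => StrongDual.toWeakDual (φ i)) (by
      rw [Ultrafilter.mem_map]
      refine univ_mem' fun i => ?_
      simpa using hφ i)
  refine ⟨WeakDual.toStrongDual w, by simpa using hw1, fun z => ?_⟩
  exact ((WeakDual.eval_continuous z).tendsto w).comp hw

lemma extend_ev (T : XX →L[ℝ] Z) {c : ℝ} (hc : 0 < c) (hT : ∀ x, c * ‖x‖ ≤ ‖T x‖) (u : D) :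
    ∃ φ : Z →L[ℝ] ℝ, ‖φ‖ ≤ 1 / c ∧ ∀ x, φ (T x) = ev u x := by
  have hinj : Function.Injective (T : XX →ₗ[ℝ] Z) := by
    rw [injective_iff_map_eq_zero]
    intro x hx
    have := hT x
    rw [show T x = 0 from hx, norm_zero] at this
    exact norm_le_zero_iff.1 (by nlinarith [norm_nonneg x])
  let e := LinearEquiv.ofInjective (T : XX →ₗ[ℝ] Z) hinj
  let L : LinearMap.range (T : XX →ₗ[ℝ] Z) →ₗ[ℝ] ℝ := (ev u : XX →ₗ[ℝ] ℝ).comp e.symm.toLinearMap
  have hL : ∀ z, ‖L z‖ ≤ 1 / c * ‖z‖ := by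
    intro z
    obtain ⟨x, rfl⟩ := e.surjective z
    have h1 : L (e x) = ev u x := by simp [L]
    have h2 : ‖e x‖ = ‖T x‖ := rfl
    rw [h1, h2, Real.norm_eq_abs, one_div, ← div_eq_inv_mul, le_div_iff₀ hc]
    have := abs_ev_le u x
    have := hT x
    nlinarith
  obtain ⟨g, hg1, hg2⟩ := exists_extension_norm_eq _ (L.mkContinuous (1 / c) hL)
  refine ⟨g, hg2 ▸ L.mkContinuous_norm_le (by positivity) hL, fun x => ?_⟩
  have h1 : g (T x) = L (e x) := hg1 (e x)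
  rw [h1]
  simp [L]

lemma uncountable_Br : Uncountable Br := by
  rw [← not_countable_iff]
  intro h
  obtain ⟨s, hs⟩ := exists_surjective_nat Br
  obtain ⟨n, hn⟩ := hs (fun i => !(s i i))
  have := congrFun hn n
  simp at this

theorem not_embed (K : Set Z) (hK : IsCompact ((toWeakSpace ℝ Z) '' K))
    (hd : Dense ((Submodule.span ℝ K : Submodule ℝ Z) : Set Z)) (T : XX →L[ℝ] Z) {c : ℝ}
    (hc : 0 < c) (hT : ∀ x, c * ‖x‖ ≤ ‖T x‖) : False := by
  have happ : ∀ β : Br, ∃ z ∈ Submodule.span ℝ K, ‖T (seg β ⊤) - z‖ ≤ c / 4 := by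
    intro β
    obtain ⟨z, hz, h⟩ := Metric.mem_closure_iff.1 (hd (T (seg β ⊤))) (c / 4) (by positivity)
    exact ⟨z, hz, by rw [← dist_eq_norm]; exact h.le⟩
  choose z hz hzn using happ
  choose p hp using fun β => mem_piece (hz β)
  have hinf : ∃ r : ℕ × ℕ, (p ⁻¹' {r}).Infinite := by
    by_contra hcon
    push Not at hcon
    have hcount : (Set.univ : Set Br).Countable := by
      have : (Set.univ : Set Br) = ⋃ r, p ⁻¹' {r} := by
        ext β; simp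
      rw [this]
      exact Set.countable_iUnion fun r => (hcon r).countable
    have := uncountable_Br
    exact Set.not_countable_univ hcount
  obtain ⟨⟨n, M⟩, hinf⟩ := hinf
  have hne : (cofinite ⊓ 𝓟 (p ⁻¹' {(n, M)})).NeBot := cofinite_inf_principal_neBot_iff.2 hinf
  obtain ⟨V, hV⟩ := Ultrafilter.exists_le (cofinite ⊓ 𝓟 (p ⁻¹' {(n, M)}))
  have hV1 : (V : Filter Br) ≤ cofinite := hV.trans inf_le_left
  have hV2 : ∀ᶠ β in (V : Filter Br), z β ∈ piece K n M := by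
    have : p ⁻¹' {(n, M)} ∈ (V : Filter Br) := le_principal_iff.1 (hV.trans inf_le_right)
    filter_upwards [this] with β hβ
    have h := hp β
    rw [show p β = (n, M) from hβ] at h
    exact h
  obtain ⟨α, hα⟩ : ∃ α : Br, ∀ i, ∀ᶠ β in (V : Filter Br), β i = α i := by
    have : ∀ i, ∃ b, ∀ᶠ β in (V : Filter Br), β i = b := by
      intro i
      rcases V.em (fun β => β i = true) with h | h
      · exact ⟨true, h⟩
      · exact ⟨false, h.mono fun β hβ => by simpa using hβ⟩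
    choose α hα using this
    exact ⟨α, hα⟩
  have hag : ∀ m : ℕ, ∀ᶠ β in (V : Filter Br), agree β α m := by
    intro m
    exact (eventually_all_finite (Set.finite_lt_nat m)).2 fun i _ => hα i
  have hneq : ∀ᶠ β in (V : Filter Br), β ≠ α := hV1 (eventually_cofinite_ne α)
  obtain ⟨w, hw⟩ := piece_limit hK n M V z hV2
  choose φ hφ1 hφ2 using fun i : ℕ => extend_ev T hc hT (i, α)
  obtain ⟨ψ, hψ1, hψ2⟩ := dual_limit φ hφ1 (hyperfilter ℕ)
  have hclose : ∀ χ : Z →L[ℝ] ℝ, ‖χ‖ ≤ 1 / c → ∀ β, |χ (T (seg β ⊤)) - χ (z β)| ≤ 1 / 4 := by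
    intro χ hχ β
    rw [← map_sub]
    calc |χ (T (seg β ⊤) - z β)| ≤ ‖χ‖ * ‖T (seg β ⊤) - z β‖ := χ.le_opNorm _
      _ ≤ 1 / c * (c / 4) := mul_le_mul hχ (hzn β) (norm_nonneg _) (by positivity)
      _ = 1 / 4 := by field_simp
  have hzero : ∀ β : Br, β ≠ α → ψ (T (seg β ⊤)) = 0 := by
    intro β hβ
    obtain ⟨j, hj⟩ := Function.ne_iff.1 hβ
    refine tendsto_nhds_unique (hψ2 _) (tendsto_const_nhds.congr' ?_)
    have : ∀ᶠ i in (hyperfilter ℕ : Filter ℕ), j < i :=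
      Nat.hyperfilter_le_atTop (eventually_gt_atTop j)
    filter_upwards [this] with i hi
    rw [hφ2, ev_seg]
    unfold segFun
    rw [if_neg (fun h => hj (h.2 j hi))]
  have hupper : ψ w ≤ 1 / 4 := by
    refine le_of_tendsto (hw ψ) ?_
    filter_upwards [hneq] with β hβ
    have := abs_le.1 (hclose ψ hψ1 β)
    rw [hzero β hβ] at this
    linarith
  have hlower : 3 / 4 ≤ ψ w := by
    refine ge_of_tendsto' (hψ2 w) fun i => ?_
    refine ge_of_tendsto (hw (φ i)) ?_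
    filter_upwards [hag i] with β hβ
    have := abs_le.1 (hclose (φ i) (hφ1 i) β)
    rw [hφ2, ev_seg] at this
    unfold segFun at this
    rw [if_pos ⟨le_top, hβ⟩] at this
    linarith
  linarith

end Pool.Agent.Lib.MP_aafae6_an
end

-- part Pool.Agent.Lib.MP_aafae6_an.Final
section

/-!
The renorming data for the tree space and smoothness of all envelopes.
-/

set_option autoImplicit false

open Filter Topology

namespace Pool.Agent.Lib.MP_aafae6_an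

abbrev Idx := (ℕ × Finset ℕ) × Fin 4

def brOf (S : Finset ℕ) : Br := fun i => decide (i ∈ S)

def fam (i : Idx) : Set (XX × XX) :=
  ![{a | ‖a.1‖ ≤ 1 ∧ a.2 = 0}, A1 (brOf i.1.2) i.1.1, A2 (brOf i.1.2) i.1.1,
    A3 (brOf i.1.2) i.1.1] i.2

lemma fam_ne (i : Idx) : (fam i).Nonempty := by
  obtain ⟨⟨k, S⟩, j⟩ := i
  fin_cases j
  · exact ⟨(0, 0), by simp, rfl⟩
  · exact ⟨_, rfl⟩
  · exact ⟨(0, 0), zero_mem_Mset _ _, rfl⟩
  · exact ⟨_, brOf S, k, k, agree.refl _ _, le_rfl, le_rfl, rfl⟩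

lemma fam_norm (i : Idx) : ∀ a ∈ fam i, ‖a.1‖ ≤ 1 ∧ ‖a.2‖ ≤ 1 := by
  obtain ⟨⟨k, S⟩, j⟩ := i
  fin_cases j
  · rintro a ⟨h1, h2⟩; exact ⟨h1, by simp [h2]⟩
  · rintro a rfl; exact ⟨norm_seg_le _ _, by simp⟩
  · rintro a ⟨h1, h2⟩; exact ⟨h1.1, by simp [h2]⟩
  · rintro a ⟨β, N, N', -, h1, h2, rfl⟩; exact ⟨norm_diff_le β h1, norm_diff_le β h2⟩

lemma exists_weights : ∃ c : Idx → ℝ, (∀ i, 0 < c i) ∧ ∀ F : Finset Idx, ∑ i ∈ F, c i ≤ 1 / 2 := by
  obtain ⟨c, h1, h2⟩ := (Set.countable_univ (α := Idx)).exists_pos_forall_sum_le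
    (ε := 1 / 2) (by norm_num)
  exact ⟨c, h1, fun F => h2 F (Set.subset_univ _)⟩

noncomputable def dat : Data XX Idx where
  c := exists_weights.choose
  A := fam
  i0 := ((0, ∅), 0)
  c_pos := exists_weights.choose_spec.1
  c_sum := exists_weights.choose_spec.2
  A_ne := fam_ne
  A_norm := fam_norm
  A_i0 := fun _ hy => ⟨hy, rfl⟩

lemma exists_node (α : Br) (k : ℕ) : ∃ S : Finset ℕ, agree α (brOf S) k := by
  refine ⟨(Finset.range k).filter (fun i => α i = true), fun i hi => ?_⟩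
  simp [brOf, hi]

theorem smooth_env (Y : Submodule ℝ (XX →L[ℝ] ℝ)) (x : XX) (hρ : 0 < dat.env Y x) :
    ∃ g : XX →L[ℝ] ℝ, ∀ h : XX, HasDerivAt (fun t : ℝ => dat.env Y (x + t • h)) (g h) 0 := by
  have := dat.filt_neBot Y x
  refine dat.gateaux Y x fun h => Cau.cauchy ?_
  refine cau_all dat.K_pos.le (dat.filt_norm Y x) (fun α k => ?_) (fun α k => ?_)
    (fun α k => ?_) h
  · obtain ⟨S, hS⟩ := exists_node α k
    rw [A1_congr hS]
    exact dat.good Y x hρ ((k, S), 1)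
  · obtain ⟨S, hS⟩ := exists_node α k
    rw [A2_congr hS]
    exact dat.good Y x hρ ((k, S), 2)
  · obtain ⟨S, hS⟩ := exists_node α k
    rw [A3_congr hS]
    exact dat.good Y x hρ ((k, S), 3)

end Pool.Agent.Lib.MP_aafae6_an
end
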