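import Pool.Agent.Lib.MP_aafae6_an.Final

/-!
The tree space with the new norm as its norm, and the non-embedding theorem in every universe.
-/

open Filter Topology

namespace Pool.Agent.Lib.MP_aafae6_an.Univ

variable {Z : Type*} [NormedAddCommGroup Z] [NormedSpace ℝ Z]

lemma weak_cont (ψ : Z →L[ℝ] ℝ) :
    Continuous (fun w : WeakSpace ℝ Z => ψ ((toWeakSpace ℝ Z).symm w)) :=
  WeakBilin.eval_continuous (topDualPairing ℝ Z).flip ψ

def piece (K : Set Z) (n M : ℕ) : Set Z :=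
  {z | ∃ (t : Fin n → ℝ) (k : Fin n → Z), (∀ i, |t i| ≤ M) ∧ (∀ i, k i ∈ K) ∧
    z = ∑ i, t i • k i}

lemma mem_piece {K : Set Z} {z : Z} (hz : z ∈ Submodule.span ℝ K) :
    ∃ p : ℕ × ℕ, z ∈ piece K p.1 p.2 := by
  obtain ⟨n, f, g, rfl⟩ := Submodule.mem_span_set'.1 hz
  obtain ⟨M, hM⟩ := exists_nat_ge (∑ i, |f i|)
  refine ⟨(n, M), f, fun i => g i, fun i => le_trans ?_ hM, fun i => (g i).2, rfl⟩
  exact Finset.single_le_sum (f := fun i => |f i|) (fun i _ => abs_nonneg _) (Finset.mem_univ i)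

lemma compact_piece {K : Set Z} (hK : IsCompact ((toWeakSpace ℝ Z) '' K)) (n M : ℕ) :
    IsCompact ((toWeakSpace ℝ Z) '' piece K n M) := by
  have h1 : IsCompact (Set.pi Set.univ fun _ : Fin n => Set.Icc (-(M : ℝ)) M) :=
    isCompact_univ_pi fun _ => isCompact_Icc
  have h2 : IsCompact (Set.pi Set.univ fun _ : Fin n => (toWeakSpace ℝ Z) '' K) :=
    isCompact_univ_pi fun _ => hK
  have hc : Continuous (fun p : (Fin n → ℝ) × (Fin n → WeakSpace ℝ Z) => ∑ i, p.1 i • p.2 i) := by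
    fun_prop
  convert (h1.prod h2).image hc using 1
  ext w
  constructor
  · rintro ⟨_, ⟨t, k, ht, hk, rfl⟩, rfl⟩
    refine ⟨(t, fun i => toWeakSpace ℝ Z (k i)), ⟨fun i _ => abs_le.1 (ht i),
      fun i _ => ⟨k i, hk i, rfl⟩⟩, ?_⟩
    simp [map_sum]
  · rintro ⟨⟨t, k⟩, ⟨ht, hk⟩, rfl⟩
    choose k' hk' hk'' using fun i => hk i (Set.mem_univ i)
    refine ⟨∑ i, t i • k' i, ⟨t, k', fun i => abs_le.2 (ht i (Set.mem_univ i)), hk', rfl⟩, ?_⟩
    simp only [map_sum, map_smul]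
    exact Finset.sum_congr rfl fun i _ => by rw [hk'' i]

lemma piece_limit {K : Set Z} (hK : IsCompact ((toWeakSpace ℝ Z) '' K)) (n M : ℕ) {ι : Type}
    (V : Ultrafilter ι) (z : ι → Z) (hz : ∀ᶠ β in (V : Filter ι), z β ∈ piece K n M) :
    ∃ w : Z, ∀ ψ : Z →L[ℝ] ℝ, Tendsto (fun β => ψ (z β)) V (𝓝 (ψ w)) := by
  obtain ⟨w, -, hw⟩ := (compact_piece hK n M).ultrafilter_le_nhds'
    (V.map fun β => toWeakSpace ℝ Z (z β)) (by
      rw [Ultrafilter.mem_map]
      filter_upwards [hz] with β hβ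
      exact ⟨z β, hβ, rfl⟩)
  refine ⟨(toWeakSpace ℝ Z).symm w, fun ψ => ?_⟩
  exact ((weak_cont ψ).tendsto w).comp hw

lemma dual_limit (φ : ℕ → Z →L[ℝ] ℝ) {C : ℝ} (hφ : ∀ i, ‖φ i‖ ≤ C) (U : Ultrafilter ℕ) :
    ∃ ψ : Z →L[ℝ] ℝ, ‖ψ‖ ≤ C ∧ ∀ z, Tendsto (fun i => φ i z) U (𝓝 (ψ z)) := by
  obtain ⟨w, hw1, hw⟩ := (WeakDual.isCompact_closedBall (𝕜 := ℝ) (E := Z) 0 C).ultrafilter_le_nhds'
    (U.map fun i => StrongDual.toWeakDual (φ i)) (by
      rw [Ultrafilter.mem_map]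
      refine univ_mem' fun i => ?_
      simpa using hφ i)
  refine ⟨WeakDual.toStrongDual w, by simpa using hw1, fun z => ?_⟩
  exact ((WeakDual.eval_continuous z).tendsto w).comp hw

lemma extend_ev (T : XX →L[ℝ] Z) {c : ℝ} (hc : 0 < c) (hT : ∀ x, c * ‖x‖ ≤ ‖T x‖) (u : D) :
    ∃ φ : Z →L[ℝ] ℝ, ‖φ‖ ≤ 1 / c ∧ ∀ x, φ (T x) = ev u x := by
  have hinj : Function.Injective (T : XX →ₗ[ℝ] Z) := by
    rw [injective_iff_map_eq_zero]
    intro x hx
    have := hT x
    rw [show T x = 0 from hx, norm_zero] at this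
    exact norm_le_zero_iff.1 (by nlinarith [norm_nonneg x])
  let e := LinearEquiv.ofInjective (T : XX →ₗ[ℝ] Z) hinj
  let L : LinearMap.range (T : XX →ₗ[ℝ] Z) →ₗ[ℝ] ℝ := (ev u : XX →ₗ[ℝ] ℝ).comp e.symm.toLinearMap
  have hL : ∀ z, ‖L z‖ ≤ 1 / c * ‖z‖ := by
    intro z
    obtain ⟨x, rfl⟩ := e.surjective z
    have h1 : L (e x) = ev u x := by simp [L]
    have h2 : ‖e x‖ = ‖T x‖ := rfl
    rw [h1, h2, Real.norm_eq_abs, one_div, ← div_eq_inv_mul, le_div_iff₀ hc]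
    have := abs_ev_le u x
    have := hT x
    nlinarith
  obtain ⟨g, hg1, hg2⟩ := exists_extension_norm_eq _ (L.mkContinuous (1 / c) hL)
  refine ⟨g, hg2 ▸ L.mkContinuous_norm_le (by positivity) hL, fun x => ?_⟩
  have h1 : g (T x) = L (e x) := hg1 (e x)
  rw [h1]
  simp [L]

theorem not_embed (K : Set Z) (hK : IsCompact ((toWeakSpace ℝ Z) '' K))
    (hd : Dense ((Submodule.span ℝ K : Submodule ℝ Z) : Set Z)) (T : XX →L[ℝ] Z) {c : ℝ}
    (hc : 0 < c) (hT : ∀ x, c * ‖x‖ ≤ ‖T x‖) : False := by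
  have happ : ∀ β : Br, ∃ z ∈ Submodule.span ℝ K, ‖T (seg β ⊤) - z‖ ≤ c / 4 := by
    intro β
    obtain ⟨z, hz, h⟩ := Metric.mem_closure_iff.1 (hd (T (seg β ⊤))) (c / 4) (by positivity)
    exact ⟨z, hz, by rw [← dist_eq_norm]; exact h.le⟩
  choose z hz hzn using happ
  choose p hp using fun β => mem_piece (hz β)
  have hinf : ∃ r : ℕ × ℕ, (p ⁻¹' {r}).Infinite := by
    by_contra hcon
    push Not at hcon
    have hcount : (Set.univ : Set Br).Countable := by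
      have : (Set.univ : Set Br) = ⋃ r, p ⁻¹' {r} := by
        ext β; simp
      rw [this]
      exact Set.countable_iUnion fun r => (hcon r).countable
    have := uncountable_Br
    exact Set.not_countable_univ hcount
  obtain ⟨⟨n, M⟩, hinf⟩ := hinf
  have hne : (cofinite ⊓ 𝓟 (p ⁻¹' {(n, M)})).NeBot := cofinite_inf_principal_neBot_iff.2 hinf
  obtain ⟨V, hV⟩ := Ultrafilter.exists_le (cofinite ⊓ 𝓟 (p ⁻¹' {(n, M)}))
  have hV1 : (V : Filter Br) ≤ cofinite := hV.trans inf_le_left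
  have hV2 : ∀ᶠ β in (V : Filter Br), z β ∈ piece K n M := by
    have : p ⁻¹' {(n, M)} ∈ (V : Filter Br) := le_principal_iff.1 (hV.trans inf_le_right)
    filter_upwards [this] with β hβ
    have h := hp β
    rw [show p β = (n, M) from hβ] at h
    exact h
  obtain ⟨α, hα⟩ : ∃ α : Br, ∀ i, ∀ᶠ β in (V : Filter Br), β i = α i := by
    have : ∀ i, ∃ b, ∀ᶠ β in (V : Filter Br), β i = b := by
      intro i
      rcases V.em (fun β => β i = true) with h | h
      · exact ⟨true, h⟩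
      · exact ⟨false, h.mono fun β hβ => by simpa using hβ⟩
    choose α hα using this
    exact ⟨α, hα⟩
  have hag : ∀ m : ℕ, ∀ᶠ β in (V : Filter Br), agree β α m := by
    intro m
    exact (eventually_all_finite (Set.finite_lt_nat m)).2 fun i _ => hα i
  have hneq : ∀ᶠ β in (V : Filter Br), β ≠ α := hV1 (eventually_cofinite_ne α)
  obtain ⟨w, hw⟩ := piece_limit hK n M V z hV2
  choose φ hφ1 hφ2 using fun i : ℕ => extend_ev T hc hT (i, α)
  obtain ⟨ψ, hψ1, hψ2⟩ := dual_limit φ hφ1 (hyperfilter ℕ)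
  have hclose : ∀ χ : Z →L[ℝ] ℝ, ‖χ‖ ≤ 1 / c → ∀ β, |χ (T (seg β ⊤)) - χ (z β)| ≤ 1 / 4 := by
    intro χ hχ β
    rw [← map_sub]
    calc |χ (T (seg β ⊤) - z β)| ≤ ‖χ‖ * ‖T (seg β ⊤) - z β‖ := χ.le_opNorm _
      _ ≤ 1 / c * (c / 4) := mul_le_mul hχ (hzn β) (norm_nonneg _) (by positivity)
      _ = 1 / 4 := by field_simp
  have hzero : ∀ β : Br, β ≠ α → ψ (T (seg β ⊤)) = 0 := by
    intro β hβ
    obtain ⟨j, hj⟩ := Function.ne_iff.1 hβ
    refine tendsto_nhds_unique (hψ2 _) (tendsto_const_nhds.congr' ?_)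
    have : ∀ᶠ i in (hyperfilter ℕ : Filter ℕ), j < i :=
      Nat.hyperfilter_le_atTop (eventually_gt_atTop j)
    filter_upwards [this] with i hi
    rw [hφ2, ev_seg]
    unfold segFun
    rw [if_neg (fun h => hj (h.2 j hi))]
  have hupper : ψ w ≤ 1 / 4 := by
    refine le_of_tendsto (hw ψ) ?_
    filter_upwards [hneq] with β hβ
    have := abs_le.1 (hclose ψ hψ1 β)
    rw [hzero β hβ] at this
    linarith
  have hlower : 3 / 4 ≤ ψ w := by
    refine ge_of_tendsto' (hψ2 w) fun i => ?_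
    refine ge_of_tendsto (hw (φ i)) ?_
    filter_upwards [hag i] with β hβ
    have := abs_le.1 (hclose (φ i) (hφ1 i) β)
    rw [hφ2, ev_seg] at this
    unfold segFun at this
    rw [if_pos ⟨le_top, hβ⟩] at this
    linarith
  linarith

/-- The tree space with the new norm. -/
def XN : Type := XX

noncomputable instance : AddCommGroup XN := inferInstanceAs (AddCommGroup XX)

noncomputable instance : Module ℝ XN := inferInstanceAs (Module ℝ XX)

noncomputable instance : Norm XN := ⟨fun x => dat.N (show XX from x)⟩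

theorem core : NormedSpace.Core ℝ XN where
  norm_nonneg x := dat.N_nonneg x
  norm_smul r x := dat.N_smul r x
  norm_triangle x y := dat.N_add x y
  norm_eq_zero_iff x := ⟨fun h => norm_le_zero_iff.1 ((dat.norm_le_N x).trans h.le), fun h => by
    have h1 := dat.N_smul 0 0
    rw [zero_smul, abs_zero, zero_mul] at h1
    exact h ▸ h1⟩

noncomputable instance : NormedAddCommGroup XN := NormedAddCommGroup.ofCore core

noncomputable instance : NormedSpace ℝ XN := NormedSpace.ofCore core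

/-- The identity map. -/
noncomputable def idN : XX ≃L[ℝ] XN :=
  LinearEquiv.toContinuousLinearEquivOfBounds (LinearEquiv.refl ℝ XX) dat.K 1
    (fun x => dat.N_le_norm x) fun x => (dat.norm_le_N x).trans (one_mul _).ge

theorem norm_idN (x : XX) : ‖idN x‖ = dat.N x := rfl

instance : CompleteSpace XN :=
  (idN.toContinuousLinearMap.isUniformEmbedding_of_bound (K := 1) fun x =>
    (dat.norm_le_N x).trans (one_mul _).ge).isUniformInducing.completeSpace_congr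
      idN.surjective |>.1 inferInstance

theorem env_eq (Y : Submodule ℝ (StrongDual ℝ XN)) (x : XX) :
    sSup {r : ℝ | ∃ f ∈ Y, ‖f‖ ≤ 1 ∧ f (idN x) = r} =
      dat.env (Y.map ((ContinuousLinearMap.compL ℝ XX XN ℝ).flip idN).toLinearMap) x := by
  refine congrArg sSup (Set.ext fun r => ⟨?_, ?_⟩)
  · rintro ⟨f, hf, h1, rfl⟩
    refine ⟨_, ⟨f, hf, rfl⟩, fun z => ?_, rfl⟩
    exact (le_abs_self _).trans ((f.le_of_opNorm_le h1 (idN z)).trans (one_mul _).le)
  · rintro ⟨_, ⟨f, hf, rfl⟩, h1, rfl⟩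
    refine ⟨f, hf, f.opNorm_le_bound zero_le_one fun z => ?_, rfl⟩
    have h2 : ∀ w : XN, f w ≤ ‖w‖ := fun w => h1 (idN.symm w)
    rw [one_mul]
    exact abs_le.2 ⟨by simpa [neg_le] using h2 (-z), h2 z⟩

theorem smooth (Y : Submodule ℝ (StrongDual ℝ XN)) (x : XN)
    (hx : 0 < sSup {r : ℝ | ∃ f ∈ Y, ‖f‖ ≤ 1 ∧ f x = r}) :
    ∃ g : StrongDual ℝ XN, ∀ h : XN,
      HasLineDerivAt ℝ (fun y => sSup {r : ℝ | ∃ f ∈ Y, ‖f‖ ≤ 1 ∧ f y = r}) (g h) x h := by
  obtain ⟨x, rfl⟩ := idN.surjective x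
  obtain ⟨g, hg⟩ := smooth_env _ x (env_eq Y x ▸ hx)
  refine ⟨g.comp idN.symm.toContinuousLinearMap, fun h => ?_⟩
  obtain ⟨h, rfl⟩ := idN.surjective h
  have h1 := hg h
  simp only [← env_eq] at h1
  exact h1

theorem not_equiv (K : Set Z) (hK : IsCompact ((toWeakSpace ℝ Z) '' K))
    (hd : Dense ((Submodule.span ℝ K : Submodule ℝ Z) : Set Z)) (S : Submodule ℝ Z)
    (e : XN ≃L[ℝ] S) : False := by
  let e' := idN.trans e
  refine not_embed K hK hd (S.subtypeL.comp e'.toContinuousLinearMap)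
    (c := (‖e'.symm.toContinuousLinearMap‖ + 1)⁻¹) (by positivity) fun x => ?_
  have h1 := e'.symm.toContinuousLinearMap.le_opNorm (e' x)
  rw [inv_mul_le_iff₀ (by positivity), add_mul, one_mul]
  exact ((congrArg norm (e'.symm_apply_apply x)).ge.trans h1).trans
    (le_add_of_nonneg_right (norm_nonneg _))

end Pool.Agent.Lib.MP_aafae6_an.Univ
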